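import Pool.Agent.X39.Near.Pow
import Pool.Agent.X39.Near.DepInt

/-!
# `log α`, `α ^ β_1`, …, `α ^ β_n` for ALL algebraic numbers `α` close to any number outside a set of dimension zero

The question: are `log α`, `α ^ β_1`, …, `α ^ β_n` algebraically independent, for all algebraic `α ≠ 0, 1` and all algebraic
`β_1, …, β_n` such that `1, β_1, …, β_n` are linearly independent over `ℚ`? We prove, outside ONE set `E` of complex numbers
of Hausdorff dimension `0` (for all `n`, all `β_k`, number fields, degrees and scales): for every `x ≠ 0` and every logarithm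
`l₀` of `x`, the `n + 1` numbers, for ALL `α ∈ F` of height at most `T` with `|α - x| ≤ T ^ (-ω)` and the determination of
`log α` close to `l₀`, satisfy no relation of bounded degree with coefficients of polynomial size, even approximately; here
the coefficients may be polynomials in arbitrary constants `ξ_1, …, ξ_g` fixed in advance. Moreover the `β_k` may be taken in
any countable set `Γ` of complex numbers fixed in advance (for instance the field generated by `π` and `e` over the
algebraic numbers). In particular nonzero integral polynomials `P` of degree at most `d` and of height at most `T ^ A`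
satisfy `|P (log α, α ^ β_1, …, α ^ β_n)| > T ^ (-B)`.

Proof: `exp s`, `s`, `exp (β_k s)` are algebraically independent functions; the levels of the library give, on compact sets,
at most `C T ^ ε` exceptional points of height `T`, for every `ε > 0`, and so a limsup set of dimension `0`
(`Pool.Agent.X39.Near`); all `β` and all branches of the logarithm are treated at the same time.
-/

set_option autoImplicit false

open MvPolynomial NumberField

namespace Pool.Agent.Results.MP_23715a_nt.ApproximationsOfAllNumbers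

open Pool.Agent.X39.Near (Size Dep)

/-- the numbers `log α`, `α ^ β_1`, …, `α ^ β_n` for `log α = ℓ` -/
noncomputable def powers {n : ℕ} (β : Fin n → ℂ) (ℓ : ℂ) : Option (Fin n) → ℂ
  | none => ℓ
  | some k => Complex.exp (β k * ℓ)

/-- `1, β_1, …, β_n` are linearly independent over `ℚ`. -/
def Independent {n : ℕ} (β : Fin n → ℂ) : Prop :=
  ∀ (c₀ : ℤ) (c : Fin n → ℤ), (c₀ : ℂ) + ∑ k, (c k : ℂ) * β k = 0 → c₀ = 0 ∧ c = 0

/-- **Theorem.** Let `Γ` be a countable set of complex numbers and `ξ_1, …, ξ_g` complex numbers. There is a set `E` of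
complex numbers of Hausdorff dimension `0` such that for all `x` outside `E`, all `l₀` with `exp l₀ = x`, all `n` and all
`β_1, …, β_n` which are algebraic or elements of `Γ`, such that `1, β_1, …, β_n` are linearly independent over `ℚ`, all number
fields `F` with an embedding `ι` in `ℂ`, all `d`, `A` and `ω > 0` there are `B`, `T₁` such that for all `T ≥ T₁` and all
`α ∈ F`, quotients of integers with conjugates at most `T`, with `|ι α - x| ≤ T ^ (-ω)`, and the logarithm `ℓ` of `ι α` with
`|ℓ - l₀| < 1`: (1) there is no relation (`Dep`) between `ℓ = log α` and the `exp (β_k ℓ) = α ^ β_k`; (2)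
`|P (log α, α ^ β_1, …, α ^ β_n)| > T ^ (-B)` for all nonzero integral polynomials `P` of degree at most `d` in each
variable with coefficients of absolute value at most `T ^ A`. -/
theorem result {g : ℕ} (Γ : Set ℂ) (hΓ : Γ.Countable) (ξ : Fin g → ℂ) :
    ∃ E : Set ℂ, dimH E = 0 ∧ ∀ x : ℂ, x ∉ E → ∀ l₀ : ℂ, Complex.exp l₀ = x →
      ∀ (n : ℕ) (β : Fin n → ℂ), (∀ k, IsAlgebraic ℚ (β k) ∨ β k ∈ Γ) → Independent β →
      ∀ (F : Type) [Field F] [NumberField F] (ι : F →+* ℂ) (d A : ℕ) (ω : ℝ), 0 < ω → ∃ B T₁ : ℝ, ∀ T : ℝ, T₁ ≤ T →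
        ∀ α : F, Size F T α → ‖ι α - x‖ ≤ T ^ (-ω) → ∀ ℓ : ℂ, Complex.exp ℓ = ι α → ‖ℓ - l₀‖ < 1 →
          ¬ Dep (powers β ℓ) ξ F ι d A B T ∧
          ∀ P : MvPolynomial (Option (Fin n)) ℤ, P ≠ 0 → (∀ j, P.degreeOf j ≤ d) →
            (∀ e, |((P.coeff e : ℤ) : ℝ)| ≤ T ^ A) → T ^ (-B) < ‖aeval (powers β ℓ) P‖ := by
  obtain ⟨E, h1, h2⟩ := Pool.Agent.X39.Near.pw_near ({β : ℂ | IsAlgebraic ℚ β} ∪ Γ) ((Algebraic.countable ℚ ℂ).union hΓ) ξ
  refine ⟨E, h1, fun x hx l₀ hl n β hβ hβ' F _ _ ι d A ω hω => ?_⟩
  obtain ⟨B, T₁, h3⟩ := h2 x hx l₀ hl n β hβ hβ' F ι d A ω hω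
  refine ⟨B, max T₁ 1, fun T hT α hα hαx ℓ hℓ hℓl => ?_⟩
  have hv : powers β ℓ = fun j => Pool.Agent.X39.Near.pw β j ℓ := by
    funext j
    rcases j with _ | k <;> rfl
  have h4 : ¬ Dep (powers β ℓ) ξ F ι d A B T := by
    rw [hv]
    exact h3 T ((le_max_left _ _).trans hT) α hα hαx ℓ hℓ hℓl
  have hT0 : 0 < T := lt_of_lt_of_le one_pos ((le_max_right _ _).trans hT)
  exact ⟨h4, fun P hP hPd hPA => Pool.Agent.X39.Near.int_of_not_dep h4 hT0 P hP hPd fun e => by
    exact_mod_cast hPA e⟩

end Pool.Agent.Results.MP_23715a_nt.ApproximationsOfAllNumbers
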